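import Pool.Agent.Run7.h260.VC.F2

set_option autoImplicit false

/-!
# Project VU (helper260), piece P3: the bound of the far configurations with the loss `c n ρ ^ 2`
-/

namespace Run7.h300.VU

open Filter Topology Metric MeasureTheory Pool.Agent.W711.HT Pool.Agent.Y472.K
open Run7.h260.VC
open GapVol (lob)
open scoped Real

lemma sum_Ep_le' {n : ℕ} [NeZero n] {x y c ρ : ℝ} (hy : 0 < y) {a b : Fin n → ℝ} (hP : PO n a b)
    (hx : |x| ≤ π) (hc : 0 < c) (hρ : 0 < ρ)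
    (hgap : ∀ x a b : ℝ, 0 ≤ b → b ≤ a → a ≤ 1 → |x| ≤ π → E0 x a b ≤ 3 * lob (π / 3) / π - c * x ^ 2)
    (hfar : ρ ≤ |x|) :
    ∑ r, (Ep x y (a r) (b r) + Ep x y (a (r + 1)) (b r)) ≤
      6 * n * lob (π / 3) / π - 2 * n * c * ρ ^ 2 + n * y := by
  have hpi := Real.pi_pos
  set M : ℝ := 3 * lob (π / 3) / π with hM
  have hx2 : ρ ^ 2 ≤ x ^ 2 := by
    rw [← sq_abs x]
    exact pow_le_pow_left₀ hρ.le hfar 2
  have hcx := mul_le_mul_of_nonneg_left hx2 hc.le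
  have b1 : ∀ r, Ep x y (a r) (b r) ≤ M - c * ρ ^ 2 + y / 2 := fun r =>
    (Ep_le hy (hP.nn r) (hP.le r) (hP.le1 r)).trans
      (by linarith [hgap x _ _ (hP.nn r) (hP.le r) (hP.le1 r) hx])
  have b2 : ∀ r, Ep x y (a (r + 1)) (b r) ≤ M - c * ρ ^ 2 + y / 2 := fun r =>
    (Ep_le hy (hP.nn r) (hP.le' r) (hP.le1 (r + 1))).trans
      (by linarith [hgap x _ _ (hP.nn r) (hP.le' r) (hP.le1 (r + 1)) hx])
  have h1 : ∑ r, (Ep x y (a r) (b r) + Ep x y (a (r + 1)) (b r)) ≤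
      ∑ _r : Fin n, ((M - c * ρ ^ 2 + y / 2) + (M - c * ρ ^ 2 + y / 2)) :=
    Finset.sum_le_sum fun r _ => add_le_add (b1 r) (b2 r)
  refine h1.trans (le_of_eq ?_)
  rw [Finset.sum_const, Finset.card_univ, Fintype.card_fin, nsmul_eq_mul, hM]
  ring

/-- the bound of the far configurations -/
theorem p3 (h : ∃ c : ℝ, 0 < c ∧ ∀ x a b : ℝ, 0 ≤ b → b ≤ a → a ≤ 1 → |x| ≤ π →
    E0 x a b ≤ 3 * lob (π / 3) / π - c * x ^ 2) : ∃ c : ℝ, 0 < c ∧ ∀ (n : ℕ) [NeZero n] (ρ : ℝ), 0 < ρ →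
    ∃ τ : ℝ, 0 < τ ∧ ∀ᶠ N : ℕ in atTop, ∀ i j : Fin n → ℕ, Ok n N i j → ∀ χ : ℂ, |χ.re| ≤ π → |χ.im| ≤ τ →
    ρ ≤ |χ.re| → ‖co n N i j * Qc n N i j χ‖ ≤
      Real.exp (N * (6 * n * lob (π / 3) / π - c * n * ρ ^ 2)) := by
  obtain ⟨c, hc, hgap⟩ := h
  refine ⟨c / 2, by positivity, fun n _ ρ hρ => ?_⟩
  have hnn : (0 : ℝ) < n := by exact_mod_cast Nat.pos_of_ne_zero (NeZero.ne n)
  set κ : ℝ := 2 * n * c * ρ ^ 2 with hκd
  have hκ : 0 < κ := by positivity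
  set τ : ℝ := κ / (4 * n) with hτ
  have hτ0 : 0 < τ := by positivity
  obtain ⟨C, hC, hQ⟩ := Pool.Agent.Y220.TK.qb τ hτ0
  have hpoly : ∀ᶠ N : ℕ in atTop, C ^ n ≤ Real.exp (N * (κ / 8)) := by
    have h1 : Tendsto (fun N : ℕ => Real.exp (N * (κ / 8))) atTop atTop :=
      Real.tendsto_exp_atTop.comp (tendsto_natCast_atTop_atTop.atTop_mul_const (by positivity))
    exact h1.eventually_ge_atTop _
  refine ⟨τ, hτ0, ?_⟩
  filter_upwards [Pool.Agent.Y681.TK.t_SB (κ / (8 * n)) (by positivity), hpoly, eventually_ge_atTop 1]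
    with N h1 h2 h3 i j hij χ hre him hfar
  have hN' : (0 : ℝ) < N := by exact_mod_cast h3
  have e1 := Pool.Agent.Y100.TK.co_bd h1 hij
  have e2 := Pool.Agent.Y100.TK.Qc_bd (x := χ.re) (fun j i => hQ N h3 j i) hij
  have e3 : ‖Qc n N i j χ‖ ≤ ‖Qc n N i j (χ.re + τ * Complex.I)‖ := by
    have h4 := Qc_mono (n := n) (N := N) (i := i) (j := j) (x := χ.re) (y := χ.im) (y' := τ)
      (by rwa [abs_of_pos hτ0])
    rwa [Complex.re_add_im] at h4
  have hP : PO n (fun r => (i r : ℝ) / N) (fun r => (j r : ℝ) / N) := by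
    refine ⟨fun r => by positivity, fun r => ?_, fun r => ?_, fun r => ?_⟩
    · rw [div_le_one hN']
      exact_mod_cast (hij.lt r).le
    · exact div_le_div_of_nonneg_right (by exact_mod_cast hij.le r) hN'.le
    · exact div_le_div_of_nonneg_right (by exact_mod_cast hij.le' r) hN'.le
  have e4 := sum_Ep_le' (n := n) hτ0 hP hre hc hρ hgap hfar
  have e5 := Pool.Agent.Y100.TK.HH_eq (n := n) hτ0 χ.re (fun r => (i r : ℝ) / N) (fun r => (j r : ℝ) / N)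
  unfold HH at e5
  set L : ℝ := ∑ r, (Lc ((i r : ℝ) / N - (j r : ℝ) / N) +
      Lc ((i (r + 1) : ℝ) / N - (j r : ℝ) / N)) with hL
  set J : ℝ := ∑ r, ∫ t in ((j r : ℝ) / N)..((i (r + 1) : ℝ) / N), lf χ.re τ t with hJ
  set H : ℝ := ∑ r, (Ep χ.re τ ((i r : ℝ) / N) ((j r : ℝ) / N) +
    Ep χ.re τ ((i (r + 1) : ℝ) / N) ((j r : ℝ) / N)) with hH
  have e6 : 2 * (n : ℝ) * (κ / (8 * n)) = κ / 4 := by
    field_simp
    ring
  rw [e6] at e1
  have e7 : (n : ℝ) * τ = κ / 4 := by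
    rw [hτ]; field_simp
  rw [e7] at e4
  have e8 : c / 2 * n * ρ ^ 2 = κ / 4 := by
    rw [hκd]; ring
  rw [norm_mul, e8]
  calc ‖co n N i j‖ * ‖Qc n N i j χ‖
      ≤ Real.exp (N * (L + κ / 4)) * (Real.exp (N * (κ / 8)) * Real.exp (N * J)) := by
        refine mul_le_mul e1 ((e3.trans e2).trans ?_) (norm_nonneg _) (Real.exp_pos _).le
        gcongr
    _ = Real.exp (N * (L + J + 3 * κ / 8)) := by
        rw [← Real.exp_add, ← Real.exp_add]
        congr 1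
        ring
    _ ≤ _ := by
        refine Real.exp_le_exp.2 (mul_le_mul_of_nonneg_left ?_ hN'.le)
        have : L + J = H := by linarith
        rw [this]
        linarith

end Run7.h300.VU
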