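import Pool.Agent.Run7.h260.VC.F2
import Pool.Agent.Run7.h260.VC.P5

set_option autoImplicit false

/-!
# Project VU (helper260), piece P1: quadratic gap of a pair
-/

namespace Run7.h300.VU

open Filter Topology Metric
open Run7.h260.VC
open GapVol (lob)
open scoped Real

/-- Lobachevsky's function near `π / 3`. -/
lemma lob_near : ∃ δ : ℝ, 0 < δ ∧ ∀ s : ℝ, |s| < δ →
    lob (π * (1 / 3 + s)) ≤ lob (π / 3) - π * Ll * s - π * s ^ 2 / 2 := by
  have hpi := Real.pi_pos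
  obtain ⟨δ, hδ, h⟩ := Metric.eventually_nhds_iff.1 FF_third_min
  refine ⟨min δ (1 / 3), lt_min hδ (by norm_num), fun s hs => ?_⟩
  have hs1 : |s| < δ := hs.trans_le (min_le_left _ _)
  have hs2 : |s| < 1 / 3 := hs.trans_le (min_le_right _ _)
  have h1 := h (y := s) (by rwa [Real.dist_eq, sub_zero])
  rw [abs_lt] at hs2
  have h2 := FF_lob (x := 1 / 3) (by norm_num) (by norm_num)
  have h3 := FF_lob (x := 1 / 3 + s) (by linarith) (by linarith)
  rw [h2, h3, Complex.ofReal_re, Complex.ofReal_re] at h1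
  have e : π * (1 / 3) = π / 3 := by ring
  rw [e] at h1
  have h4 := mul_le_mul_of_nonneg_left h1 hpi.le
  have e1 : π * (-(lob (π / 3) / π) + Ll * s + s ^ 2 / 2) =
      -lob (π / 3) + π * Ll * s + π * s ^ 2 / 2 := by
    field_simp
  have e2 : π * -(lob (π * (1 / 3 + s)) / π) = -lob (π * (1 / 3 + s)) := by
    field_simp
  rw [e1, e2] at h4
  linarith

/-- the three term function near its maximum -/
lemma T_near {δ : ℝ} (h : ∀ s : ℝ, |s| < δ →
    lob (π * (1 / 3 + s)) ≤ lob (π / 3) - π * Ll * s - π * s ^ 2 / 2) {α β : ℝ}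
    (h1 : |α| < δ / 2) (h2 : |β| < δ / 2) (hδ : 0 < δ) :
    lob (π * (1 / 3 + α)) + lob (π * (1 / 3 + β)) - lob (π * (1 / 3 + α) + π * (1 / 3 + β)) ≤
      3 * lob (π / 3) - π * β ^ 2 / 2 := by
  have hpi := Real.pi_pos
  have a1 := h α (by linarith)
  have a2 := h β (by linarith)
  have a3 := h (-(α + β)) (by
    rw [abs_neg]
    have := abs_add_le α β
    linarith)
  have e : lob (π * (1 / 3 + α) + π * (1 / 3 + β)) = -lob (π * (1 / 3 + -(α + β))) := by
    rw [← lob_refl]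
    congr 1
    ring
  rw [e]
  have h5 : 0 ≤ π * (α ^ 2 + (α + β) ^ 2) / 2 := by positivity
  nlinarith

/-- the quadratic gap -/
theorem p1 : ∃ c : ℝ, 0 < c ∧ ∀ x a b : ℝ, 0 ≤ b → b ≤ a → a ≤ 1 → |x| ≤ π →
    E0 x a b ≤ 3 * lob (π / 3) / π - c * x ^ 2 := by
  have hpi := Real.pi_pos
  have hpi3 := Real.pi_gt_three
  obtain ⟨δ, hδ, hn⟩ := lob_near
  have hρ : 0 < δ / 4 := by positivity
  obtain ⟨κ, hκ, hgap⟩ := E0_gap hρ
  refine ⟨min (1 / (8 * π ^ 2)) (κ / π ^ 2), lt_min (by positivity) (by positivity),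
    fun x a b hb hab ha hx => ?_⟩
  have hx2 : x ^ 2 ≤ π ^ 2 := by
    rw [← sq_abs x]
    exact pow_le_pow_left₀ (abs_nonneg x) hx 2
  by_cases hfar : δ / 4 ≤ |x| ∨ δ / 4 ≤ |a - 2 / 3| ∨ δ / 4 ≤ |b - 1 / 3|
  · have h1 := hgap x a b hb hab ha hx hfar
    have h2 : min (1 / (8 * π ^ 2)) (κ / π ^ 2) * x ^ 2 ≤ κ := by
      calc min (1 / (8 * π ^ 2)) (κ / π ^ 2) * x ^ 2 ≤ κ / π ^ 2 * π ^ 2 :=
            mul_le_mul (min_le_right _ _) hx2 (sq_nonneg x) (by positivity)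
        _ = κ := by field_simp
    linarith
  · push Not at hfar
    obtain ⟨g1, g2, g3⟩ := hfar
    have h2 : min (1 / (8 * π ^ 2)) (κ / π ^ 2) * x ^ 2 ≤ x ^ 2 / (8 * π ^ 2) := by
      calc min (1 / (8 * π ^ 2)) (κ / π ^ 2) * x ^ 2 ≤ 1 / (8 * π ^ 2) * x ^ 2 :=
            mul_le_mul_of_nonneg_right (min_le_left _ _) (sq_nonneg x)
        _ = x ^ 2 / (8 * π ^ 2) := by ring
    rw [abs_lt] at g1 g2 g3
    set α : ℝ := a - b - 1 / 3 with hα
    set β : ℝ := b - 1 / 3 + x / (2 * π) with hβ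
    set β' : ℝ := b - 1 / 3 - x / (2 * π) with hβ'
    have hxs : |x / (2 * π)| < δ / 4 := by
      rw [abs_div, abs_of_pos (show 0 < 2 * π by positivity), div_lt_iff₀ (by positivity)]
      have : |x| < δ / 4 := abs_lt.2 g1
      nlinarith
    rw [abs_lt] at hxs
    have k1 : |α| < δ / 2 := by rw [abs_lt, hα]; constructor <;> linarith
    have k2 : |β| < δ / 2 := by rw [abs_lt, hβ]; constructor <;> linarith
    have k3 : |β'| < δ / 2 := by rw [abs_lt, hβ']; constructor <;> linarith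
    have t1 := T_near hn k1 k2 hδ
    have t2 := T_near hn k1 k3 hδ
    have e1 : π * (1 / 3 + α) = π * (a - b) := by rw [hα]; ring
    have e2 : π * (1 / 3 + β) = π * b + x / 2 := by rw [hβ]; field_simp; ring
    have e3 : π * (1 / 3 + β') = π * b - x / 2 := by rw [hβ']; field_simp; ring
    rw [e1, e2] at t1
    rw [e1, e3] at t2
    have hb2 : x ^ 2 / (2 * π ^ 2) ≤ β ^ 2 + β' ^ 2 := by
      have : β ^ 2 + β' ^ 2 = 2 * (b - 1 / 3) ^ 2 + x ^ 2 / (2 * π ^ 2) := by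
        rw [hβ, hβ']; field_simp; ring
      rw [this]
      nlinarith [sq_nonneg (b - 1 / 3)]
    rw [E0_eq]
    have h3 : (lob (π * (a - b)) + lob (π * b + x / 2) -
        lob (π * (a - b) + (π * b + x / 2)) + (lob (π * (a - b)) + lob (π * b - x / 2) -
        lob (π * (a - b) + (π * b - x / 2)))) / (2 * π) ≤
        3 * lob (π / 3) / π - (β ^ 2 + β' ^ 2) / 4 := by
      rw [div_le_iff₀ (by positivity)]
      have : (3 * lob (π / 3) / π - (β ^ 2 + β' ^ 2) / 4) * (2 * π) =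
          6 * lob (π / 3) - π * (β ^ 2 + β' ^ 2) / 2 := by
        field_simp
        ring
      rw [this]
      linarith
    have h4 : x ^ 2 / (8 * π ^ 2) = x ^ 2 / (2 * π ^ 2) / 4 := by ring
    linarith

end Run7.h300.VU
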